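import Pool.Agent.Helper95.KZ.Goals

set_option autoImplicit false

namespace Pool.Agent.Helper14.KZ

open Pool.Agent.Helper95.KZ

universe u

/-- PRE. -/
theorem pre : PreStmt.{u} := by
  intro Γ _ K hK hKf ⟨A, hA, ⟨e⟩⟩
  have hKfin : Finite K := hKf.to_subtype
  have hMA : Finite (MulAut K) :=
    Finite.of_injective (fun f : K ≃* K => (f : K → K)) DFunLike.coe_injective
  obtain ⟨N, hN⟩ : ∃ N, N = Nat.card (MulAut K) := ⟨_, rfl⟩
  have hN0 : 0 < N := by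
    rw [hN]
    exact Nat.card_pos
  have hpow : ∀ g : Γ, ∀ k ∈ K, g ^ N * k = k * g ^ N := by
    intro g k hk
    have h1 : (MulAut.conjNormal g : MulAut K) ^ N = 1 := by
      rw [hN]
      exact pow_card_eq_one'
    have h2 : (MulAut.conjNormal (g ^ N) : MulAut K) ⟨k, hk⟩ = ⟨k, hk⟩ := by
      rw [map_pow, h1]
      rfl
    have h3 := congrArg Subtype.val h2
    rw [MulAut.conjNormal_apply] at h3
    exact mul_inv_eq_iff_eq_mul.1 h3
  obtain ⟨Ψ, hΨ, hΨA⟩ : ∃ Ψ : Multiplicative (ℤ × ℤ) →* Γ, Function.Injective Ψ ∧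
      ∀ g ∈ A, ∃ x : ℤ × ℤ, Ψ (Multiplicative.ofAdd x) = g := by
    refine ⟨A.subtype.comp e.symm.toMonoidHom, ?_, ?_⟩
    · intro x y hxy
      exact e.symm.injective (Subtype.val_injective hxy)
    · intro g hg
      refine ⟨Multiplicative.toAdd (e ⟨g, hg⟩), ?_⟩
      change ((e.symm (Multiplicative.ofAdd (Multiplicative.toAdd (e ⟨g, hg⟩))) : A) : Γ) = g
      rw [ofAdd_toAdd, MulEquiv.symm_apply_apply]
  obtain ⟨a, ha⟩ : ∃ a, a = Ψ (Multiplicative.ofAdd ((N : ℤ), 0)) := ⟨_, rfl⟩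
  obtain ⟨b, hb⟩ : ∃ b, b = Ψ (Multiplicative.ofAdd (0, (N : ℤ))) := ⟨_, rfl⟩
  have hab : ∀ i j : ℤ, a ^ i * b ^ j = Ψ (Multiplicative.ofAdd (N * i, N * j)) := by
    intro i j
    rw [ha, hb, ← map_zpow Ψ, ← map_zpow Ψ, ← map_mul Ψ, ← ofAdd_zsmul, ← ofAdd_zsmul, ← ofAdd_add]
    congr 2
    ext
    · simp [mul_comm]
    · simp [mul_comm]
  have haN : a = Ψ (Multiplicative.ofAdd (1, 0)) ^ N := by
    rw [ha, ← map_pow Ψ, ← ofAdd_nsmul]
    congr 2
    ext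
    · simp
    · simp
  have hbN : b = Ψ (Multiplicative.ofAdd (0, 1)) ^ N := by
    rw [hb, ← map_pow Ψ, ← ofAdd_nsmul]
    congr 2
    ext
    · simp
    · simp
  refine ⟨a, b, ?_, ?_, ?_, ?_, ?_⟩
  · rw [ha, hb, ← map_mul Ψ, ← map_mul Ψ, mul_comm]
  · intro k hk
    rw [haN]
    exact hpow _ k hk
  · intro k hk
    rw [hbN]
    exact hpow _ k hk
  · intro i j hij
    rw [hab, ← map_one Ψ] at hij
    have h1 := hΨ hij
    have h2 : ((N : ℤ) * i, (N : ℤ) * j) = (0, 0) := Multiplicative.ofAdd.injective h1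
    have h3 : (N : ℤ) * i = 0 := congrArg Prod.fst h2
    have h4 : (N : ℤ) * j = 0 := congrArg Prod.snd h2
    have hN' : (N : ℤ) ≠ 0 := by
      have : N ≠ 0 := hN0.ne'
      exact_mod_cast this
    exact ⟨(mul_eq_zero.1 h3).resolve_left hN', (mul_eq_zero.1 h4).resolve_left hN'⟩
  · have hQ : Finite (Γ ⧸ A) := inferInstance
    refine ⟨Set.image2 (fun (x : ℤ × ℤ) (t : Γ) => Ψ (Multiplicative.ofAdd x) * t⁻¹)
      (Set.Ico (0 : ℤ) N ×ˢ Set.Ico (0 : ℤ) N) (Set.range fun q : Γ ⧸ A => q.out),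
      Set.Finite.image2 _ ((Set.finite_Ico _ _).prod (Set.finite_Ico _ _))
        (Set.finite_range _), ?_⟩
    intro g
    obtain ⟨α, hα⟩ := QuotientGroup.mk_out_eq_mul A g⁻¹
    obtain ⟨⟨x, y⟩, hxy⟩ := hΨA α α.2
    have hN' : (0 : ℤ) < N := by exact_mod_cast hN0
    refine ⟨x / N, y / N, Ψ (Multiplicative.ofAdd (x % N, y % N)) *
      (((g⁻¹ : Γ) : Γ ⧸ A).out)⁻¹, ?_, ?_⟩
    · exact Set.mem_image2.2 ⟨(x % N, y % N),
        ⟨⟨Int.emod_nonneg _ hN'.ne', Int.emod_lt_of_pos _ hN'⟩,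
          ⟨Int.emod_nonneg _ hN'.ne', Int.emod_lt_of_pos _ hN'⟩⟩, _, ⟨_, rfl⟩, rfl⟩
    · rw [hab, ← mul_assoc, ← map_mul Ψ, ← ofAdd_add, hα]
      have e1 : ((N : ℤ) * (x / N), (N : ℤ) * (y / N)) + (x % N, y % N) = (x, y) := by
        ext
        · simp only [Prod.fst_add]
          have := Int.emod_add_mul_ediv x N
          linarith
        · simp only [Prod.snd_add]
          have := Int.emod_add_mul_ediv y N
          linarith
      rw [e1, hxy]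
      group

end Pool.Agent.Helper14.KZ
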